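import Mathlib

/-!
# Heights of rational functions

`ht (u / v) = max (deg u) (deg v)` for coprime `u`, `v`; if `x₁ + x₂ = S / D`, `x₁ x₂ = N / D` and
`D`, `S`, `N` generate the unit ideal, then `ht x₁ + ht x₂` is the maximum of the degrees of `D`, `S`, `N`.
-/

set_option autoImplicit false

open Polynomial

namespace Pool.Agent.HS

variable {F : Type*} [Field F]

/-- The height of a rational function. -/
noncomputable def ht (x : RatFunc F) : ℕ := max x.num.natDegree x.denom.natDegree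

lemma emb_ne {v : F[X]} (hv : v ≠ 0) : algebraMap F[X] (RatFunc F) v ≠ 0 :=
  RatFunc.algebraMap_ne_zero hv

lemma emb_inj {u v : F[X]} (h : algebraMap F[X] (RatFunc F) u = algebraMap F[X] (RatFunc F) v) : u = v :=
  RatFunc.algebraMap_injective F h

theorem ht_le {u v : F[X]} (hv : v ≠ 0) :
    ht (algebraMap F[X] (RatFunc F) u / algebraMap F[X] (RatFunc F) v) ≤ max u.natDegree v.natDegree := by
  unfold ht
  refine max_le ?_ ((natDegree_le_of_dvd (RatFunc.denom_div_dvd u v) hv).trans (le_max_right _ _))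
  by_cases hu : u = 0
  · rw [hu, map_zero, zero_div, RatFunc.num_zero, natDegree_zero]
    exact Nat.zero_le _
  · exact (natDegree_le_of_dvd (RatFunc.num_div_dvd u hv) hu).trans (le_max_left _ _)

theorem ht_coprime {u v : F[X]} (hv : v ≠ 0) (h : IsCoprime u v) :
    ht (algebraMap F[X] (RatFunc F) u / algebraMap F[X] (RatFunc F) v) = max u.natDegree v.natDegree := by
  obtain ⟨x, hx⟩ : ∃ x : RatFunc F, x = algebraMap F[X] (RatFunc F) u / algebraMap F[X] (RatFunc F) v :=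
    ⟨_, rfl⟩
  rw [← hx]
  have h1 := RatFunc.num_div_denom x
  have hs : x.denom ≠ 0 := RatFunc.denom_ne_zero x
  have e : u * x.denom = x.num * v := by
    apply emb_inj
    rw [map_mul, map_mul]
    have : algebraMap F[X] (RatFunc F) x.num / algebraMap F[X] (RatFunc F) x.denom =
        algebraMap F[X] (RatFunc F) u / algebraMap F[X] (RatFunc F) v := by
      rw [h1, hx]
    rw [div_eq_div_iff (emb_ne hs) (emb_ne hv)] at this
    exact this.symm
  have hc := RatFunc.isCoprime_num_denom x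
  have a1 : u ∣ x.num := h.dvd_of_dvd_mul_right (by rw [← e]; exact dvd_mul_right _ _)
  have a2 : x.num ∣ u := hc.dvd_of_dvd_mul_right (by rw [e]; exact dvd_mul_right _ _)
  have a3 : v ∣ x.denom := h.symm.dvd_of_dvd_mul_left (by rw [e]; exact dvd_mul_left _ _)
  have a4 : x.denom ∣ v := hc.symm.dvd_of_dvd_mul_left (by rw [← e]; exact dvd_mul_left _ _)
  have b1 : x.num.natDegree = u.natDegree :=
    natDegree_eq_of_degree_eq (degree_eq_degree_of_associated (associated_of_dvd_dvd a2 a1))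
  have b2 : x.denom.natDegree = v.natDegree :=
    natDegree_eq_of_degree_eq (degree_eq_degree_of_associated (associated_of_dvd_dvd a4 a3))
  unfold ht
  rw [b1, b2]

theorem ht_le_of_mul {u v g u' v' : F[X]} (hv : v ≠ 0) (hu : u = g * u') (hv' : v = g * v') :
    ht (algebraMap F[X] (RatFunc F) u / algebraMap F[X] (RatFunc F) v) + g.natDegree ≤
      max u.natDegree v.natDegree := by
  have hg : g ≠ 0 := by
    rintro rfl
    exact hv (by rw [hv', zero_mul])
  have hv0 : v' ≠ 0 := by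
    rintro rfl
    exact hv (by rw [hv', mul_zero])
  have e : algebraMap F[X] (RatFunc F) u / algebraMap F[X] (RatFunc F) v =
      algebraMap F[X] (RatFunc F) u' / algebraMap F[X] (RatFunc F) v' := by
    rw [hu, hv', map_mul, map_mul, mul_div_mul_left _ _ (emb_ne hg)]
  rw [e]
  have h1 := ht_le (u := u') hv0
  have h2 : v.natDegree = g.natDegree + v'.natDegree := by rw [hv', natDegree_mul hg hv0]
  by_cases hu0 : u' = 0
  · rw [hu0] at h1 ⊢
    rw [natDegree_zero, max_eq_right (Nat.zero_le _)] at h1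
    have := le_max_right u.natDegree v.natDegree
    omega
  · have h3 : u.natDegree = g.natDegree + u'.natDegree := by rw [hu, natDegree_mul hg hu0]
    rw [h2, h3]
    omega

/-- Gauss: the three coefficients of the product of two primitive polynomials of degree one -/
lemma bezout_prod {r₁ s₁ r₂ s₂ : F[X]} (h₁ : IsCoprime r₁ s₁) (h₂ : IsCoprime r₂ s₂) :
    ∃ α β γ : F[X], α * (s₁ * s₂) + β * (r₁ * s₂ + r₂ * s₁) + γ * (r₁ * r₂) = 1 := by
  obtain ⟨a1, b1, e1⟩ := h₁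
  obtain ⟨a2, b2, e2⟩ := h₂
  obtain ⟨U, hU⟩ : ∃ U, U = a1 * b2 * (r₁ * s₂) := ⟨_, rfl⟩
  obtain ⟨V, hV⟩ : ∃ V, V = b1 * a2 * (r₂ * s₁) := ⟨_, rfl⟩
  obtain ⟨T, hT⟩ : ∃ T, T = a1 * a2 * (r₁ * r₂) + b1 * b2 * (s₁ * s₂) := ⟨_, rfl⟩
  have hone : T + U + V = 1 := by
    rw [hT, hU, hV]
    linear_combination (a2 * r₂ + b2 * s₂) * e1 + e2
  refine ⟨b1 * b2 * (T + 2 * U + 2 * V) - (a1 * b2) ^ 2 * (r₁ * r₂) - (b1 * a2) ^ 2 * (r₁ * r₂) +
    2 * (a1 * b2 * (b1 * a2)) * (r₁ * r₂), (a1 * b2) ^ 2 * (r₁ * s₂) + (b1 * a2) ^ 2 * (r₂ * s₁),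
    a1 * a2 * (T + 2 * U + 2 * V), ?_⟩
  have h2 : (T + U + V) ^ 2 = 1 := by rw [hone, one_pow]
  rw [← h2]
  have e3 : (T + U + V) ^ 2 = T * (T + 2 * U + 2 * V) + U ^ 2 + V ^ 2 + 2 * (U * V) := by ring
  rw [e3]
  nth_rewrite 3 [hT]
  have e4 : U ^ 2 = (a1 * b2) ^ 2 * (r₁ * s₂) * (r₁ * s₂) := by rw [hU]; ring
  have e5 : V ^ 2 = (b1 * a2) ^ 2 * (r₂ * s₁) * (r₂ * s₁) := by rw [hV]; ring
  have e6 : U * V = (a1 * b2 * (b1 * a2)) * (r₁ * s₂) * (r₂ * s₁) := by rw [hU, hV]; ring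
  rw [e4, e5, e6]
  ring

/-- one of two coprime polynomials has a nonzero coefficient in the maximal degree -/
lemma coeff_max {r s : F[X]} (hs : s ≠ 0) :
    r.coeff (max r.natDegree s.natDegree) ≠ 0 ∨ s.coeff (max r.natDegree s.natDegree) ≠ 0 := by
  rcases le_or_gt r.natDegree s.natDegree with h | h
  · right
    rw [max_eq_right h]
    exact leadingCoeff_ne_zero.mpr hs
  · left
    rw [max_eq_left h.le]
    refine leadingCoeff_ne_zero.mpr ?_
    rintro rfl
    simp at h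

theorem ht_add {x₁ x₂ : RatFunc F} {D S N : F[X]} (hD : D ≠ 0)
    (h₁ : x₁ + x₂ = algebraMap F[X] (RatFunc F) S / algebraMap F[X] (RatFunc F) D)
    (h₂ : x₁ * x₂ = algebraMap F[X] (RatFunc F) N / algebraMap F[X] (RatFunc F) D)
    (hcop : ∃ α β γ : F[X], α * D + β * S + γ * N = 1) {M : ℕ} (hdD : D.natDegree ≤ M)
    (hdS : S.natDegree ≤ M) (hdN : N.natDegree ≤ M)
    (hM : D.coeff M ≠ 0 ∨ S.coeff M ≠ 0 ∨ N.coeff M ≠ 0) : ht x₁ + ht x₂ = M := by
  obtain ⟨r₁, hr₁⟩ : ∃ r₁, r₁ = x₁.num := ⟨_, rfl⟩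
  obtain ⟨s₁, hs₁⟩ : ∃ s₁, s₁ = x₁.denom := ⟨_, rfl⟩
  obtain ⟨r₂, hr₂⟩ : ∃ r₂, r₂ = x₂.num := ⟨_, rfl⟩
  obtain ⟨s₂, hs₂⟩ : ∃ s₂, s₂ = x₂.denom := ⟨_, rfl⟩
  have n1 : s₁ ≠ 0 := hs₁ ▸ RatFunc.denom_ne_zero x₁
  have n2 : s₂ ≠ 0 := hs₂ ▸ RatFunc.denom_ne_zero x₂
  have f1 : x₁ = algebraMap F[X] (RatFunc F) r₁ / algebraMap F[X] (RatFunc F) s₁ := by
    rw [hr₁, hs₁, RatFunc.num_div_denom]
  have f2 : x₂ = algebraMap F[X] (RatFunc F) r₂ / algebraMap F[X] (RatFunc F) s₂ := by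
    rw [hr₂, hs₂, RatFunc.num_div_denom]
  have m1 := emb_ne n1
  have m2 := emb_ne n2
  have mD := emb_ne hD
  have e1 : (r₁ * s₂ + r₂ * s₁) * D = S * (s₁ * s₂) := by
    apply emb_inj
    rw [f1, f2, div_add_div _ _ m1 m2, div_eq_div_iff (mul_ne_zero m1 m2) mD] at h₁
    simp only [map_mul, map_add]
    linear_combination h₁
  have e2 : (r₁ * r₂) * D = N * (s₁ * s₂) := by
    apply emb_inj
    rw [f1, f2, div_mul_div_comm, div_eq_div_iff (mul_ne_zero m1 m2) mD] at h₂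
    simp only [map_mul]
    linear_combination h₂
  have c1 : IsCoprime r₁ s₁ := by rw [hr₁, hs₁]; exact RatFunc.isCoprime_num_denom x₁
  have c2 : IsCoprime r₂ s₂ := by rw [hr₂, hs₂]; exact RatFunc.isCoprime_num_denom x₂
  have d1 : D ∣ s₁ * s₂ := by
    obtain ⟨α, β, γ, h⟩ := hcop
    refine ⟨α * (s₁ * s₂) + β * (r₁ * s₂ + r₂ * s₁) + γ * (r₁ * r₂), ?_⟩
    linear_combination (-(s₁ * s₂)) * h - β * e1 - γ * e2
  have d2 : s₁ * s₂ ∣ D := by
    obtain ⟨α, β, γ, h⟩ := bezout_prod c1 c2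
    refine ⟨α * D + β * S + γ * N, ?_⟩
    linear_combination (-D) * h + β * e1 + γ * e2
  obtain ⟨w, hw⟩ := (associated_of_dvd_dvd d2 d1)
  obtain ⟨c, hc, hcw⟩ := Polynomial.isUnit_iff.mp w.isUnit
  have hc0 : c ≠ 0 := hc.ne_zero
  have g1 : D = C c * (s₁ * s₂) := by rw [← hw, ← hcw]; ring
  have hss : s₁ * s₂ ≠ 0 := mul_ne_zero n1 n2
  have g2 : S = C c * (r₁ * s₂ + r₂ * s₁) := by
    apply mul_right_cancel₀ hss
    rw [← e1, g1]
    ring
  have g3 : N = C c * (r₁ * r₂) := by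
    apply mul_right_cancel₀ hss
    rw [← e2, g1]
    ring
  obtain ⟨a, ha⟩ : ∃ a, a = max r₁.natDegree s₁.natDegree := ⟨_, rfl⟩
  obtain ⟨b, hb⟩ : ∃ b, b = max r₂.natDegree s₂.natDegree := ⟨_, rfl⟩
  have ht1 : ht x₁ = a := by rw [ha, hr₁, hs₁]; rfl
  have ht2 : ht x₂ = b := by rw [hb, hr₂, hs₂]; rfl
  rw [ht1, ht2]
  have p1 : r₁.natDegree ≤ a := ha ▸ le_max_left _ _
  have p2 : s₁.natDegree ≤ a := ha ▸ le_max_right _ _
  have p3 : r₂.natDegree ≤ b := hb ▸ le_max_left _ _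
  have p4 : s₂.natDegree ≤ b := hb ▸ le_max_right _ _
  have q1 : r₁.coeff a ≠ 0 ∨ s₁.coeff a ≠ 0 := ha ▸ coeff_max n1
  have q2 : r₂.coeff b ≠ 0 ∨ s₂.coeff b ≠ 0 := hb ▸ coeff_max n2
  have k1 : D.coeff (a + b) = c * (s₁.coeff a * s₂.coeff b) := by
    rw [g1, coeff_C_mul, coeff_mul_add_eq_of_natDegree_le p2 p4]
  have k2 : N.coeff (a + b) = c * (r₁.coeff a * r₂.coeff b) := by
    rw [g3, coeff_C_mul, coeff_mul_add_eq_of_natDegree_le p1 p3]
  have k3 : S.coeff (a + b) = c * (r₁.coeff a * s₂.coeff b + r₂.coeff b * s₁.coeff a) := by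
    rw [g2, coeff_C_mul, coeff_add, coeff_mul_add_eq_of_natDegree_le p1 p4, add_comm a b,
      coeff_mul_add_eq_of_natDegree_le p3 p2]
  have l1 : D.natDegree ≤ a + b := by
    rw [g1]
    exact (natDegree_C_mul_le _ _).trans (natDegree_mul_le.trans (add_le_add p2 p4))
  have l2 : N.natDegree ≤ a + b := by
    rw [g3]
    exact (natDegree_C_mul_le _ _).trans (natDegree_mul_le.trans (add_le_add p1 p3))
  have l3 : S.natDegree ≤ a + b := by
    rw [g2]
    refine (natDegree_C_mul_le _ _).trans ((natDegree_add_le _ _).trans (max_le ?_ ?_))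
    · exact natDegree_mul_le.trans (add_le_add p1 p4)
    · rw [add_comm a b]
      exact natDegree_mul_le.trans (add_le_add p3 p2)
  apply le_antisymm
  · have : D.coeff (a + b) ≠ 0 ∨ S.coeff (a + b) ≠ 0 ∨ N.coeff (a + b) ≠ 0 := by
      rw [k1, k2, k3]
      by_cases hs1 : s₁.coeff a = 0
      · have hr1 : r₁.coeff a ≠ 0 := q1.resolve_right (not_not.mpr hs1)
        by_cases hr2 : r₂.coeff b = 0
        · have hs2 : s₂.coeff b ≠ 0 := q2.resolve_left (not_not.mpr hr2)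
          right; left
          rw [hr2, zero_mul, add_zero]
          exact mul_ne_zero hc0 (mul_ne_zero hr1 hs2)
        · right; right
          exact mul_ne_zero hc0 (mul_ne_zero hr1 hr2)
      · by_cases hs2 : s₂.coeff b = 0
        · have hr2 : r₂.coeff b ≠ 0 := q2.resolve_right (not_not.mpr hs2)
          right; left
          rw [hs2, mul_zero, zero_add]
          exact mul_ne_zero hc0 (mul_ne_zero hr2 hs1)
        · left
          exact mul_ne_zero hc0 (mul_ne_zero hs1 hs2)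
    rcases this with h | h | h
    · exact (le_natDegree_of_ne_zero h).trans hdD
    · exact (le_natDegree_of_ne_zero h).trans hdS
    · exact (le_natDegree_of_ne_zero h).trans hdN
  · rcases hM with h | h | h
    · exact (le_natDegree_of_ne_zero h).trans l1
    · exact (le_natDegree_of_ne_zero h).trans l3
    · exact (le_natDegree_of_ne_zero h).trans l2

end Pool.Agent.HS
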