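import Pool.Agent.HS.Ht

/-!
# The parallelogram law with the tautological point (Manin)

`λ = t³ + a t + b`, the curve `Y² = X³ + a λ² X + b λ³` over `F(t)` has the point `Q = (λ t, λ²)`, and
`h(P + Q) + h(P - Q) = 2 h(P) + 2` for every point `P`, where `h(x, y) = ht (x / λ)`.
-/

set_option autoImplicit false

open Polynomial

namespace Pool.Agent.HS

variable {F : Type*} [Field F]

/-- `t³ + a t + b`. -/
noncomputable def cub (a b : F) : F[X] := X ^ 3 + C a * X + C b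

/-- `λ` in the function field. -/
noncomputable def lam (a b : F) : RatFunc F := algebraMap F[X] (RatFunc F) (cub a b)

/-- The twisted curve. -/
noncomputable def W (a b : F) : WeierstrassCurve.Affine (RatFunc F) where
  a₁ := 0
  a₂ := 0
  a₃ := 0
  a₄ := algebraMap F[X] (RatFunc F) (C a) * lam a b ^ 2
  a₆ := algebraMap F[X] (RatFunc F) (C b) * lam a b ^ 3

/-- The height of a point. -/
noncomputable def hp {a b : F} : (W a b).Point → ℕ
  | .zero => 0
  | .some x _ _ => ht (x / lam a b)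

lemma cub_ne (a b : F) : cub a b ≠ 0 := by
  intro h
  have : (cub a b).coeff 3 = 0 := by rw [h, coeff_zero]
  simp [cub] at this

lemma lam_ne (a b : F) : lam a b ≠ 0 := emb_ne (cub_ne a b)

lemma two_ne (h2 : (2 : F) ≠ 0) : (2 : RatFunc F) ≠ 0 := by
  have h : (algebraMap F[X] (RatFunc F) (C (2 : F))) ≠ 0 := emb_ne (C_ne_zero.mpr h2)
  have e : algebraMap F[X] (RatFunc F) (C (2 : F)) = 2 := by
    rw [show (C (2 : F) : F[X]) = 2 from C_ofNat 2]
    exact map_ofNat _ 2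
  rwa [e] at h

/-- the equation of the curve -/
lemma equation_iff' {a b : F} (x y : RatFunc F) : (W a b).Equation x y ↔
    y ^ 2 = x ^ 3 + algebraMap F[X] (RatFunc F) (C a) * lam a b ^ 2 * x +
      algebraMap F[X] (RatFunc F) (C b) * lam a b ^ 3 := by
  rw [WeierstrassCurve.Affine.equation_iff]
  simp only [W, zero_mul, add_zero]

lemma disc_ne {a b : F} (h2 : (2 : F) ≠ 0) (hD : 4 * a ^ 3 + 27 * b ^ 2 ≠ 0) : (W a b).Δ ≠ 0 := by
  have e : (W a b).Δ = -(2 ^ 4 * algebraMap F[X] (RatFunc F) (C (4 * a ^ 3 + 27 * b ^ 2)) * lam a b ^ 6) := by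
    simp only [WeierstrassCurve.Δ, WeierstrassCurve.b₂, WeierstrassCurve.b₄, WeierstrassCurve.b₆,
      WeierstrassCurve.b₈, W, map_add, map_mul, map_pow, map_ofNat]
    ring
  rw [e, neg_ne_zero]
  exact mul_ne_zero (mul_ne_zero (pow_ne_zero _ (two_ne h2)) (emb_ne (C_ne_zero.mpr hD)))
    (pow_ne_zero _ (lam_ne a b))

lemma nonsing {a b : F} (h2 : (2 : F) ≠ 0) (hD : 4 * a ^ 3 + 27 * b ^ 2 ≠ 0) {x y : RatFunc F}
    (h : y ^ 2 = x ^ 3 + algebraMap F[X] (RatFunc F) (C a) * lam a b ^ 2 * x +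
      algebraMap F[X] (RatFunc F) (C b) * lam a b ^ 3) : (W a b).Nonsingular x y :=
  (WeierstrassCurve.Affine.equation_iff_nonsingular_of_Δ_ne_zero (disc_ne h2 hD)).mp
    ((equation_iff' x y).mpr h)

lemma lam_eq (a b : F) : lam a b = algebraMap F[X] (RatFunc F) X ^ 3 +
    algebraMap F[X] (RatFunc F) (C a) * algebraMap F[X] (RatFunc F) X +
    algebraMap F[X] (RatFunc F) (C b) := by
  simp only [lam, cub, map_add, map_mul, map_pow]

lemma Q_eq (a b : F) : (lam a b ^ 2) ^ 2 = (lam a b * algebraMap F[X] (RatFunc F) X) ^ 3 +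
    algebraMap F[X] (RatFunc F) (C a) * lam a b ^ 2 * (lam a b * algebraMap F[X] (RatFunc F) X) +
      algebraMap F[X] (RatFunc F) (C b) * lam a b ^ 3 := by
  linear_combination lam a b ^ 3 * lam_eq a b

/-- The tautological point. -/
noncomputable def Q {a b : F} (h2 : (2 : F) ≠ 0) (hD : 4 * a ^ 3 + 27 * b ^ 2 ≠ 0) : (W a b).Point :=
  .some (lam a b * algebraMap F[X] (RatFunc F) X) (lam a b ^ 2) (nonsing h2 hD (Q_eq a b))

/-! ### The addition formulas -/

lemma sum_id {K : Type*} [Field K] {l t A B X y : K} (hl : l ≠ 0) (hX : X - t ≠ 0)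
    (hlt : l = t ^ 3 + A * t + B) (hy : y ^ 2 = l ^ 3 * (X ^ 3 + A * X + B)) :
    ((y - l ^ 2) / (l * (X - t))) ^ 2 + ((y + l ^ 2) / (l * (X - t))) ^ 2 - 2 * (l * (X + t)) =
      l * (2 * ((X + t) * (X * t + A) + 2 * B) / (X - t) ^ 2) := by
  field_simp
  linear_combination 2 * hy + 2 * l ^ 3 * hlt

lemma prod_id {K : Type*} [Field K] {l t A B X y : K} (hl : l ≠ 0) (hX : X - t ≠ 0)
    (hlt : l = t ^ 3 + A * t + B) (hy : y ^ 2 = l ^ 3 * (X ^ 3 + A * X + B)) :
    (((y - l ^ 2) / (l * (X - t))) ^ 2 - l * (X + t)) * (((y + l ^ 2) / (l * (X - t))) ^ 2 - l * (X + t)) =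
      l ^ 2 * (((X * t - A) ^ 2 - 4 * B * (X + t)) / (X - t) ^ 2) := by
  field_simp
  linear_combination (y ^ 2 + l ^ 3 * (X ^ 3 + A * X + B) - 2 * l ^ 4 - 2 * l ^ 3 * (X + t) * (X - t) ^ 2) * hy +
    l ^ 6 * (-(2 * (X ^ 3 + A * X + B) - l - (t ^ 3 + A * t + B)) - 2 * (X + t) * (X - t) ^ 2) * hlt

lemma dup_id {K : Type*} [Field K] {l t A B : K} (hl : l ≠ 0) (t2 : (2 : K) ≠ 0)
    (hlt : l = t ^ 3 + A * t + B) :
    (((3 * (l * t) ^ 2 + 2 * 0 * (l * t) + A * l ^ 2 - 0 * l ^ 2) / (l ^ 2 - -l ^ 2)) ^ 2 - l * t - l * t) / l =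
      ((t ^ 2 - A) ^ 2 - 8 * (B * t)) / (4 * l) := by
  have t4 : (4 : K) ≠ 0 := by
    have : (4 : K) = 2 * 2 := by norm_num
    rw [this]
    exact mul_ne_zero t2 t2
  have e5 : l ^ 2 - -l ^ 2 = 2 * l ^ 2 := by ring
  have e6 : (3 * (l * t) ^ 2 + 2 * 0 * (l * t) + A * l ^ 2 - 0 * l ^ 2) / (2 * l ^ 2) = (3 * t ^ 2 + A) / 2 := by
    rw [div_eq_div_iff (mul_ne_zero t2 (pow_ne_zero 2 hl)) t2]
    ring
  rw [e5, e6, div_eq_div_iff hl (mul_ne_zero t4 hl), div_pow]
  have e7 : ((3 * t ^ 2 + A) ^ 2 / 2 ^ 2 - l * t - l * t) * (4 * l) = ((3 * t ^ 2 + A) ^ 2 - 8 * (l * t)) * l := by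
    field_simp
    ring
  rw [e7]
  linear_combination (-8 * t * l) * hlt

/-! ### The numerators and their degrees -/

section poly

variable (a b : F) (u v : F[X])

/-- the denominator -/
noncomputable def pD : F[X] := (u - X * v) ^ 2

/-- the numerator of the sum -/
noncomputable def pS : F[X] := 2 * ((u + X * v) * (X * u + C a * v) + 2 * (C b * v ^ 2))

/-- the numerator of the product -/
noncomputable def pN : F[X] := (X * u - C a * v) ^ 2 - 4 * (C b * (v * (u + X * v)))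

/-- the numerator of the duplication -/
noncomputable def psi : F[X] := (X ^ 2 - C a) ^ 2 - 8 * (C b * X)

lemma res_id : (3 * X ^ 2 + 4 * C a) * psi a b - (3 * X ^ 3 - 5 * C a * X - 27 * C b) * cub a b =
    C (4 * a ^ 3 + 27 * b ^ 2) := by
  simp only [psi, cub, C_add, C_mul, C_pow, C_ofNat]
  ring

lemma bezout_par (h2 : (2 : F) ≠ 0) (hD : 4 * a ^ 3 + 27 * b ^ 2 ≠ 0) (h : IsCoprime u v) :
    ∃ α β γ : F[X], α * pD u v + β * pS a b u v + γ * pN a b u v = 1 := by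
  obtain ⟨p, q, hpq⟩ := h
  obtain ⟨E, hE⟩ : ∃ E, E = u - X * v := ⟨_, rfl⟩
  have hu : u = E + X * v := by rw [hE]; ring
  obtain ⟨r, hr⟩ : ∃ r, r = p * X + q := ⟨_, rfl⟩
  have hrv : p * E + r * v = 1 := by rw [hr, hE]; linear_combination hpq
  obtain ⟨k, hk⟩ : ∃ k : F[X], k = C ((4 * (4 * a ^ 3 + 27 * b ^ 2))⁻¹) := ⟨_, rfl⟩
  have h4 : (4 : F) * (4 * a ^ 3 + 27 * b ^ 2) ≠ 0 := by
    refine mul_ne_zero ?_ hD
    have : (4 : F) = 2 * 2 := by norm_num
    rw [this]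
    exact mul_ne_zero h2 h2
  have hk4 : k * (4 * C (4 * a ^ 3 + 27 * b ^ 2)) = 1 := by
    have : (4 * C (4 * a ^ 3 + 27 * b ^ 2) : F[X]) = C (4 * (4 * a ^ 3 + 27 * b ^ 2)) := by
      rw [C_mul, C_ofNat]
    rw [this, hk, ← C_mul, inv_mul_cancel₀ h4, C_1]
  obtain ⟨f, hf⟩ : ∃ f, f = cub a b := ⟨_, rfl⟩
  obtain ⟨S, hS⟩ : ∃ S, S = pS a b u v := ⟨_, rfl⟩
  obtain ⟨N, hN⟩ : ∃ N, N = pN a b u v := ⟨_, rfl⟩
  obtain ⟨s', hs'⟩ : ∃ s' : F[X], s' = 2 * (X * E + 3 * X ^ 2 * v + C a * v) := ⟨_, rfl⟩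
  obtain ⟨n', hn'⟩ : ∃ n' : F[X], n' = X ^ 2 * E + 2 * X * (X ^ 2 - C a) * v - 4 * C b * v := ⟨_, rfl⟩
  have e1 : S = E * s' + 4 * v ^ 2 * f := by
    rw [hS, hs', hf, pS, cub, hu]
    ring
  have e2 : N = E * n' + v ^ 2 * psi a b := by
    rw [hN, hn', pN, psi, hu]
    ring
  have e3 := res_id a b
  rw [← hf] at e3
  obtain ⟨g, hg⟩ : ∃ g : F[X], g = 3 * X ^ 2 + 4 * C a := ⟨_, rfl⟩
  obtain ⟨w, hw⟩ : ∃ w : F[X], w = 3 * X ^ 3 - 5 * C a * X - 27 * C b := ⟨_, rfl⟩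
  rw [← hg, ← hw] at e3
  obtain ⟨L, hL⟩ : ∃ L, L = k * r ^ 2 * (4 * g * N - w * S) := ⟨_, rfl⟩
  obtain ⟨R, hR⟩ : ∃ R, R = k * r ^ 2 * (-(4 * g * n') + w * s') + 2 * p - p ^ 2 * E := ⟨_, rfl⟩
  have e4 : L + E * R = 1 := by
    have h5 : k * r ^ 2 * (4 * (v ^ 2 * (g * psi a b - w * f))) = r ^ 2 * v ^ 2 := by
      rw [e3]
      linear_combination r ^ 2 * v ^ 2 * hk4
    have h6 : r ^ 2 * v ^ 2 = (1 - p * E) ^ 2 := by
      linear_combination (r * v + (1 - p * E)) * hrv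
    rw [hL, hR, e1, e2]
    linear_combination h5 + h6
  refine ⟨R ^ 2, -(k * r ^ 2 * w * (L + 2 * (E * R))), k * r ^ 2 * (4 * g) * (L + 2 * (E * R)), ?_⟩
  have e5 : pD u v = E ^ 2 := by rw [pD, hE]
  rw [e5, ← hS, ← hN]
  have e6 : (L + E * R) ^ 2 = 1 := by rw [e4, one_pow]
  rw [← e6]
  nth_rewrite 3 [hL]
  rw [hL]
  ring


lemma deg_lin {h : ℕ} (hu : u.natDegree ≤ h) (hv : v.natDegree ≤ h) :
    (u - X * v).natDegree ≤ h + 1 ∧ (u - X * v).coeff (h + 1) = -v.coeff h := by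
  constructor
  · refine (natDegree_sub_le _ _).trans (max_le (by omega) ?_)
    rw [add_comm]
    exact natDegree_mul_le.trans (add_le_add natDegree_X_le hv)
  · rw [coeff_sub, coeff_X_mul, coeff_eq_zero_of_natDegree_lt (by omega), zero_sub]

lemma deg_D {h : ℕ} (hu : u.natDegree ≤ h) (hv : v.natDegree ≤ h) :
    (pD u v).natDegree ≤ 2 * h + 2 ∧ (pD u v).coeff (2 * h + 2) = v.coeff h ^ 2 := by
  obtain ⟨h1, h2⟩ := deg_lin u v hu hv
  have e : 2 * h + 2 = (h + 1) + (h + 1) := by ring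
  rw [pD, pow_two, e]
  refine ⟨natDegree_mul_le.trans (add_le_add h1 h1), ?_⟩
  rw [coeff_mul_add_eq_of_natDegree_le h1 h1, h2]
  ring

lemma deg_N {h : ℕ} (hu : u.natDegree ≤ h) (hv : v.natDegree ≤ h) :
    (pN a b u v).natDegree ≤ 2 * h + 2 ∧ (pN a b u v).coeff (2 * h + 2) = u.coeff h ^ 2 := by
  have h1 : (X * u - C a * v).natDegree ≤ h + 1 := by
    refine (natDegree_sub_le _ _).trans (max_le ?_ ?_)
    · rw [add_comm]
      exact natDegree_mul_le.trans (add_le_add natDegree_X_le hu)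
    · exact (natDegree_C_mul_le _ _).trans (by omega)
  have h2 : (X * u - C a * v).coeff (h + 1) = u.coeff h := by
    rw [coeff_sub, coeff_X_mul, coeff_C_mul, coeff_eq_zero_of_natDegree_lt (show v.natDegree < h + 1 by omega),
      mul_zero, sub_zero]
  have h3 : (4 * (C b * (v * (u + X * v)))).natDegree ≤ 2 * h + 1 := by
    have e4 : (4 : F[X]) = C 4 := (C_ofNat 4).symm
    rw [e4]
    refine (natDegree_C_mul_le _ _).trans ((natDegree_C_mul_le _ _).trans ?_)
    have e : 2 * h + 1 = h + (h + 1) := by ring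
    rw [e]
    refine natDegree_mul_le.trans (add_le_add hv ((natDegree_add_le _ _).trans (max_le (by omega) ?_)))
    rw [add_comm]
    exact natDegree_mul_le.trans (add_le_add natDegree_X_le hv)
  have e : 2 * h + 2 = (h + 1) + (h + 1) := by ring
  constructor
  · refine (natDegree_sub_le _ _).trans (max_le ?_ (by omega))
    rw [pow_two, e]
    exact natDegree_mul_le.trans (add_le_add h1 h1)
  · have h5 : (4 * (C b * (v * (u + X * v)))).coeff (2 * h + 2) = 0 :=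
      coeff_eq_zero_of_natDegree_lt (by omega)
    rw [pN, coeff_sub, h5, sub_zero, pow_two, e, coeff_mul_add_eq_of_natDegree_le h1 h1, h2]
    ring

lemma deg_S {h : ℕ} (hu : u.natDegree ≤ h) (hv : v.natDegree ≤ h) :
    (pS a b u v).natDegree ≤ 2 * h + 2 := by
  have e2 : (2 : F[X]) = C 2 := (C_ofNat 2).symm
  have hX : ∀ w : F[X], w.natDegree ≤ h → (X * w).natDegree ≤ h + 1 := by
    intro w hw
    rw [add_comm]
    exact natDegree_mul_le.trans (add_le_add natDegree_X_le hw)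
  have e : 2 * h + 2 = (h + 1) + (h + 1) := by ring
  rw [pS, e2]
  refine (natDegree_C_mul_le _ _).trans ((natDegree_add_le _ _).trans (max_le ?_ ?_))
  · rw [e]
    refine natDegree_mul_le.trans (add_le_add ((natDegree_add_le _ _).trans (max_le (by omega) (hX v hv)))
      ((natDegree_add_le _ _).trans (max_le (hX u hu) ?_)))
    exact (natDegree_C_mul_le _ _).trans (by omega)
  · refine (natDegree_C_mul_le _ _).trans ((natDegree_C_mul_le _ _).trans ?_)
    rw [pow_two]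
    exact natDegree_mul_le.trans (by omega)

lemma psi_deg : (psi a b).natDegree = 4 := by
  unfold psi
  compute_degree!

lemma cub_deg : (cub a b).natDegree = 3 := by
  unfold cub
  compute_degree!

end poly

/-! ### The law -/

variable {a b : F}

lemma hp_zero : hp (0 : (W a b).Point) = 0 := rfl

lemma hp_some {x y : RatFunc F} (h : (W a b).Nonsingular x y) :
    hp (WeierstrassCurve.Affine.Point.some x y h) = ht (x / lam a b) := rfl

lemma hp_neg (P : (W a b).Point) : hp (-P) = hp P := by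
  rcases P with _ | ⟨x, y, h⟩
  · rfl
  · rfl

lemma negY_eq (x y : RatFunc F) : (W a b).negY x y = -y := by
  simp [WeierstrassCurve.Affine.negY, W]

lemma addX_eq (x₁ x₂ s : RatFunc F) : (W a b).addX x₁ x₂ s = s ^ 2 - x₁ - x₂ := by
  simp [WeierstrassCurve.Affine.addX, W]

lemma ht_t : ht (algebraMap F[X] (RatFunc F) X) = 1 := by
  have h := ht_coprime (u := (X : F[X])) (v := 1) one_ne_zero isCoprime_one_right
  rw [map_one, div_one] at h
  rw [h, natDegree_X, natDegree_one]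
  rfl

lemma hp_Q (h2 : (2 : F) ≠ 0) (hD : 4 * a ^ 3 + 27 * b ^ 2 ≠ 0) : hp (Q h2 hD) = 1 := by
  rw [Q, hp_some, mul_div_cancel_left₀ _ (lam_ne a b), ht_t]

variable [DecidableEq (RatFunc F)]

lemma hp_two_Q (h2 : (2 : F) ≠ 0) (hD : 4 * a ^ 3 + 27 * b ^ 2 ≠ 0) : hp (Q h2 hD + Q h2 hD) = 4 := by
  have hl := lam_ne a b
  have t2 := two_ne h2
  have hy : lam a b ^ 2 ≠ (W a b).negY (lam a b * algebraMap F[X] (RatFunc F) X) (lam a b ^ 2) := by
    rw [negY_eq]
    intro h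
    have : 2 * lam a b ^ 2 = 0 := by linear_combination h
    exact mul_ne_zero t2 (pow_ne_zero 2 hl) this
  rw [Q, WeierstrassCurve.Affine.Point.add_self_of_Y_ne hy, hp_some,
    WeierstrassCurve.Affine.slope_of_Y_ne rfl hy, addX_eq]
  have e4 : (4 : F[X]) = C 4 := (C_ofNat 4).symm
  have h4 : (4 : F) ≠ 0 := by
    have : (4 : F) = 2 * 2 := by norm_num
    rw [this]
    exact mul_ne_zero h2 h2
  have e : (((3 * (lam a b * algebraMap F[X] (RatFunc F) X) ^ 2 + 2 * (W a b).a₂ *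
      (lam a b * algebraMap F[X] (RatFunc F) X) + (W a b).a₄ - (W a b).a₁ * lam a b ^ 2) /
      (lam a b ^ 2 - (W a b).negY (lam a b * algebraMap F[X] (RatFunc F) X) (lam a b ^ 2))) ^ 2 -
      lam a b * algebraMap F[X] (RatFunc F) X - lam a b * algebraMap F[X] (RatFunc F) X) / lam a b =
      algebraMap F[X] (RatFunc F) (psi a b) / algebraMap F[X] (RatFunc F) (4 * cub a b) := by
    have hc : algebraMap F[X] (RatFunc F) (4 * cub a b) = 4 * lam a b := by
      rw [map_mul, map_ofNat]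
      rfl
    have hpsi : algebraMap F[X] (RatFunc F) (psi a b) = (algebraMap F[X] (RatFunc F) X ^ 2 -
        algebraMap F[X] (RatFunc F) (C a)) ^ 2 - 8 * (algebraMap F[X] (RatFunc F) (C b) *
        algebraMap F[X] (RatFunc F) X) := by
      simp only [psi, map_sub, map_mul, map_pow, map_ofNat]
    rw [hc, hpsi, negY_eq]
    have ha : (W a b).a₂ = 0 := rfl
    have ha' : (W a b).a₁ = 0 := rfl
    have ha4 : (W a b).a₄ = algebraMap F[X] (RatFunc F) (C a) * lam a b ^ 2 := rfl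
    rw [ha, ha', ha4]
    exact dup_id hl t2 (lam_eq a b)
  rw [e]
  have hcop : IsCoprime (psi a b) (4 * cub a b) := by
    have h16 : (4 : F) * (4 * a ^ 3 + 27 * b ^ 2) ≠ 0 := mul_ne_zero h4 hD
    refine ⟨C ((4 * a ^ 3 + 27 * b ^ 2)⁻¹) * (3 * X ^ 2 + 4 * C a),
      -(C ((4 * (4 * a ^ 3 + 27 * b ^ 2))⁻¹) * (3 * X ^ 3 - 5 * C a * X - 27 * C b)), ?_⟩
    have h5 := res_id a b
    have h6 : C ((4 * a ^ 3 + 27 * b ^ 2)⁻¹) * C (4 * a ^ 3 + 27 * b ^ 2) = (1 : F[X]) := by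
      rw [← C_mul, inv_mul_cancel₀ hD, C_1]
    have h7 : C ((4 * (4 * a ^ 3 + 27 * b ^ 2))⁻¹) * 4 = (C ((4 * a ^ 3 + 27 * b ^ 2)⁻¹) : F[X]) := by
      rw [e4, ← C_mul]
      congr 1
      field_simp
    linear_combination C ((4 * a ^ 3 + 27 * b ^ 2)⁻¹) * h5 + h6 -
      (3 * X ^ 3 - 5 * C a * X - 27 * C b) * cub a b * h7
  have hne : (4 : F[X]) * cub a b ≠ 0 := by
    rw [e4]
    exact mul_ne_zero (C_ne_zero.mpr h4) (cub_ne a b)
  rw [ht_coprime hne hcop, psi_deg, e4, natDegree_C_mul h4, cub_deg]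
  rfl

/-- the law for a point with another abscissa -/
lemma par_gen (h2 : (2 : F) ≠ 0) (hD : 4 * a ^ 3 + 27 * b ^ 2 ≠ 0) {x y : RatFunc F}
    (h : (W a b).Nonsingular x y) (hx : x ≠ lam a b * algebraMap F[X] (RatFunc F) X) :
    hp (WeierstrassCurve.Affine.Point.some x y h + Q h2 hD) +
      hp (WeierstrassCurve.Affine.Point.some x y h - Q h2 hD) =
      2 * hp (WeierstrassCurve.Affine.Point.some x y h) + 2 := by
  have hl := lam_ne a b
  have hy := (equation_iff' x y).mp h.1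
  rw [sub_eq_add_neg, Q, WeierstrassCurve.Affine.Point.neg_some, WeierstrassCurve.Affine.Point.add_of_X_ne hx,
    WeierstrassCurve.Affine.Point.add_of_X_ne hx, hp_some, hp_some, hp_some,
    WeierstrassCurve.Affine.slope_of_X_ne hx, WeierstrassCurve.Affine.slope_of_X_ne hx, addX_eq, addX_eq,
    negY_eq]
  obtain ⟨z, hz⟩ : ∃ z, z = x / lam a b := ⟨_, rfl⟩
  have hxz : x = lam a b * z := by rw [hz, mul_div_cancel₀ _ hl]
  obtain ⟨u, hu⟩ : ∃ u, u = z.num := ⟨_, rfl⟩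
  obtain ⟨v, hv⟩ : ∃ v, v = z.denom := ⟨_, rfl⟩
  have hv0 : v ≠ 0 := hv ▸ RatFunc.denom_ne_zero z
  have hzuv : z = algebraMap F[X] (RatFunc F) u / algebraMap F[X] (RatFunc F) v := by
    rw [hu, hv, RatFunc.num_div_denom]
  have hcop : IsCoprime u v := by rw [hu, hv]; exact RatFunc.isCoprime_num_denom z
  have hM : ht z = max u.natDegree v.natDegree := by rw [hu, hv]; rfl
  rw [← hz, hM]
  obtain ⟨M, hMd⟩ : ∃ M, M = max u.natDegree v.natDegree := ⟨_, rfl⟩
  rw [← hMd]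
  have p1 : u.natDegree ≤ M := hMd ▸ le_max_left _ _
  have p2 : v.natDegree ≤ M := hMd ▸ le_max_right _ _
  have hzt : z - algebraMap F[X] (RatFunc F) X ≠ 0 := by
    intro h0
    apply hx
    rw [hxz, sub_eq_zero.mp h0]
  have hVn := emb_ne hv0
  have hDn : pD u v ≠ 0 := by
    rw [pD]
    refine pow_ne_zero 2 fun h0 => hzt ?_
    rw [hzuv, sub_eq_zero.mp h0, map_mul, mul_div_cancel_right₀ _ hVn, sub_self]
  have hy' : y ^ 2 = lam a b ^ 3 * (z ^ 3 + algebraMap F[X] (RatFunc F) (C a) * z +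
      algebraMap F[X] (RatFunc F) (C b)) := by
    rw [hy, hxz]
    ring
  have hs := sum_id hl hzt (lam_eq a b) hy'
  have hp' := prod_id hl hzt (lam_eq a b) hy'
  have eD : algebraMap F[X] (RatFunc F) (pD u v) = algebraMap F[X] (RatFunc F) v ^ 2 *
      (z - algebraMap F[X] (RatFunc F) X) ^ 2 := by
    rw [hzuv, pD, map_pow, map_sub, map_mul, ← mul_pow, mul_sub, mul_div_cancel₀ _ hVn]
    ring
  have hUV : algebraMap F[X] (RatFunc F) u = algebraMap F[X] (RatFunc F) v * z := by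
    rw [hzuv, mul_div_cancel₀ _ hVn]
  have eS : algebraMap F[X] (RatFunc F) (pS a b u v) = algebraMap F[X] (RatFunc F) v ^ 2 *
      (2 * ((z + algebraMap F[X] (RatFunc F) X) * (z * algebraMap F[X] (RatFunc F) X +
      algebraMap F[X] (RatFunc F) (C a)) + 2 * algebraMap F[X] (RatFunc F) (C b))) := by
    simp only [pS, map_mul, map_add, map_pow, map_ofNat, hUV]
    ring
  have eN : algebraMap F[X] (RatFunc F) (pN a b u v) = algebraMap F[X] (RatFunc F) v ^ 2 *
      ((z * algebraMap F[X] (RatFunc F) X - algebraMap F[X] (RatFunc F) (C a)) ^ 2 -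
      4 * algebraMap F[X] (RatFunc F) (C b) * (z + algebraMap F[X] (RatFunc F) X)) := by
    simp only [pN, map_mul, map_add, map_sub, map_pow, map_ofNat, hUV]
    ring
  have hv2 : algebraMap F[X] (RatFunc F) v ^ 2 ≠ 0 := pow_ne_zero 2 hVn
  refine ht_add hDn ?_ ?_ (bezout_par a b u v h2 hD hcop) (deg_D u v p1 p2).1
    (deg_S a b u v p1 p2) (deg_N a b u v p1 p2).1 ?_
  · rw [eS, eD, mul_div_mul_left _ _ hv2, ← add_div, div_eq_iff hl]
    rw [mul_comm _ (lam a b), ← hs, hxz]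
    rw [show lam a b * z - lam a b * algebraMap F[X] (RatFunc F) X =
      lam a b * (z - algebraMap F[X] (RatFunc F) X) by ring, sub_neg_eq_add]
    ring
  · rw [eN, eD, mul_div_mul_left _ _ hv2, div_mul_div_comm, div_eq_iff (mul_ne_zero hl hl)]
    rw [mul_comm _ (lam a b * lam a b), ← pow_two (lam a b), ← hp', hxz]
    rw [show lam a b * z - lam a b * algebraMap F[X] (RatFunc F) X =
      lam a b * (z - algebraMap F[X] (RatFunc F) X) by ring, sub_neg_eq_add]
    ring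
  · rcases coeff_max (r := u) hv0 with h0 | h0
    · right; right
      rw [(deg_N a b u v p1 p2).2]
      rw [← hMd] at h0
      exact pow_ne_zero 2 h0
    · left
      rw [(deg_D u v p1 p2).2]
      rw [← hMd] at h0
      exact pow_ne_zero 2 h0

/-- **Manin's parallelogram law.** -/
theorem par (h2 : (2 : F) ≠ 0) (hD : 4 * a ^ 3 + 27 * b ^ 2 ≠ 0) (P : (W a b).Point) :
    hp (P + Q h2 hD) + hp (P - Q h2 hD) = 2 * hp P + 2 := by
  rcases P with _ | ⟨x, y, h⟩
  · change hp (0 + Q h2 hD) + hp (0 - Q h2 hD) = 2 * hp (0 : (W a b).Point) + 2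
    rw [zero_add, zero_sub, hp_neg, hp_Q, hp_zero]
  · by_cases hx : x = lam a b * algebraMap F[X] (RatFunc F) X
    · have hy := (equation_iff' x y).mp h.1
      have hq := Q_eq a b
      have hy2 : y ^ 2 = (lam a b ^ 2) ^ 2 := by rw [hy, hq, hx]
      rcases sq_eq_sq_iff_eq_or_eq_neg.mp hy2 with h0 | h0
      · have e : WeierstrassCurve.Affine.Point.some x y h = Q h2 hD := by
          subst hx h0
          rfl
        rw [e, sub_self, hp_two_Q, hp_zero, hp_Q]
      · have e : WeierstrassCurve.Affine.Point.some x y h = -Q h2 hD := by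
          rw [Q, WeierstrassCurve.Affine.Point.neg_some]
          subst hx h0
          congr 1
          rw [negY_eq]
        rw [e, neg_add_cancel, ← neg_add', hp_neg, hp_two_Q, hp_zero, hp_neg, hp_Q]
    · exact par_gen h2 hD h hx

end Pool.Agent.HS
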